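import Mathlib

set_option autoImplicit false

/-!
# Kakeya maximal estimate for reducible families of lines: definitions
-/

open MeasureTheory Set Filter Topology ENNReal NNReal Metric

namespace Pool.Agent.H742R2.Kk

/-- Euclidean space of dimension `n`. -/
abbrev E (n : ℕ) : Type := EuclideanSpace ℝ (Fin n)

/-- The point `(r, z)`. -/
noncomputable def ins {k : ℕ} (r : ℝ) (z : E k) : E (k + 1) :=
  WithLp.toLp 2 (Fin.cons r z.ofLp : Fin (k + 1) → ℝ)

/-- The point `z` if `p = (y, z)`. -/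
noncomputable def tl {k : ℕ} (p : E (k + 1)) : E k :=
  WithLp.toLp 2 (fun i => p (Fin.succ i))

/-- If `p = (y, z)`: the point `(y cos θ - σ sin θ, y sin θ + σ cos θ, z)`.  For `σ = 0` these
are the points of the hyperplane that contains `(cos θ, sin θ, 0)` and the last `k` axes; `σ` is
the signed distance to this hyperplane. -/
noncomputable def emb {k : ℕ} (θ σ : ℝ) (p : E (k + 1)) : E (k + 2) :=
  ins (p 0 * Real.cos θ - σ * Real.sin θ) (ins (p 0 * Real.sin θ + σ * Real.cos θ) (tl p))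

/-- Part of the infinite `δ`-tube around the line `a + ℝ e` between heights `k` and `k+1`. -/
def tub {n : ℕ} (δ : ℝ) (e a : E n) (k : ℤ) : Set (E n) :=
  {p | (k : ℝ) ≤ inner ℝ p e ∧ inner ℝ p e ≤ (k : ℝ) + 1 ∧
    ‖(p - a) - (inner ℝ (p - a) e : ℝ) • e‖ ≤ δ}

/-- Normalised integral of `f` over the `k`-th piece of the tube number `e`. -/
noncomputable def wav {m : ℕ} (δ : ℝ) (a : E (m + 1) → E (m + 1)) (k : ℤ)
    (f : E (m + 1) → ℝ≥0∞) (e : E (m + 1)) : ℝ≥0∞ :=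
  (ENNReal.ofReal δ ^ m)⁻¹ * ∫⁻ p in tub δ e (a e) k, f p

/-- Reducible families of lines `a e + ℝ e`, `e` in the unit sphere of `ℝ^n`. -/
def Reducible : (n : ℕ) → (E n → E n) → Prop
  | 0, a => Measurable a
  | 1, a => Measurable a
  | (k + 2), a => Measurable a ∧ ∃ U : E (k + 2) ≃ₗᵢ[ℝ] E (k + 2), ∀ θ : ℝ,
      ∃ (β : ℝ) (a' : E (k + 1) → E (k + 1)), Reducible (k + 1) a' ∧
        ∀ e : E (k + 1), ‖e‖ = 1 → 0 < e 0 → ∃ s : ℝ,
          a (U (emb θ 0 e)) = U (emb θ β (a' e + s • e))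

/-- The estimate with constant `A` in dimension `m + 1`. -/
def KB (m : ℕ) (δ : ℝ) (a : E (m + 1) → E (m + 1)) (A : ℝ≥0∞) : Prop :=
  ∀ f : E (m + 1) → ℝ≥0∞, Measurable f →
    ∫⁻ x in closedBall (0 : E (m + 1)) 1, (⨆ k : ℤ, wav δ a k f (‖x‖⁻¹ • x)) ^ (m + 1)
      ≤ A * ∫⁻ p, f p ^ (m + 1)

end Pool.Agent.H742R2.Kk
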