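import Pool.Agent.H742R2.Kk.Defs
import Pool.Agent.H742R2.Kk.TTstar

set_option autoImplicit false

open MeasureTheory Set Filter Topology ENNReal NNReal Metric

namespace Pool.Agent.H742R2.Kk

namespace PlAux

/-- rotation invariance of the Lebesgue measure of the plane -/
lemma lintegral_rot (θ : ℝ) (F : ℝ × ℝ → ℝ≥0∞) (hF : Measurable F) :
    ∫⁻ p : ℝ × ℝ, F (p.1 * Real.cos θ - p.2 * Real.sin θ, p.1 * Real.sin θ + p.2 * Real.cos θ) =
      ∫⁻ p, F p := by
  set L := Matrix.toLin (Module.Basis.finTwoProd ℝ) (Module.Basis.finTwoProd ℝ)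
    !![Real.cos θ, -Real.sin θ; Real.sin θ, Real.cos θ] with hL
  have hdet : LinearMap.det L = 1 := by
    rw [hL, LinearMap.det_toLin, Matrix.det_fin_two_of]
    nlinarith [Real.sin_sq_add_cos_sq θ]
  have hmap : Measure.map L (volume : Measure (ℝ × ℝ)) = volume := by
    rw [Measure.map_linearMap_addHaar_eq_smul_addHaar _ (by rw [hdet]; norm_num), hdet]
    simp
  have hLm : Measurable L := L.continuous_of_finiteDimensional.measurable
  have hval : ∀ p : ℝ × ℝ, L p =
      (p.1 * Real.cos θ - p.2 * Real.sin θ, p.1 * Real.sin θ + p.2 * Real.cos θ) := by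
    intro p
    rw [hL, Matrix.toLin_finTwoProd_apply]
    ext
    · simp only; ring
    · simp only; ring
  calc _ = ∫⁻ p, F (L p) := by
        apply lintegral_congr
        intro p
        rw [hval]
    _ = ∫⁻ p, F p ∂(Measure.map L (volume : Measure (ℝ × ℝ))) := (lintegral_map hF hLm).symm
    _ = _ := by rw [hmap]

/-- rectangle in the coordinates of the direction `θ` -/
def SetS (θ b δ c d : ℝ) : Set (ℝ × ℝ) :=
  {q | |(-q.1 * Real.sin θ + q.2 * Real.cos θ) - b| ≤ δ ∧
    c ≤ q.1 * Real.cos θ + q.2 * Real.sin θ ∧ q.1 * Real.cos θ + q.2 * Real.sin θ ≤ d}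

/-- strip -/
def Str (θ b δ : ℝ) : Set (ℝ × ℝ) :=
  {q | |(-q.1 * Real.sin θ + q.2 * Real.cos θ) - b| ≤ δ}

lemma measSetS (θ b δ c d : ℝ) : MeasurableSet (SetS θ b δ c d) := by
  have h1 : MeasurableSet {q : ℝ × ℝ |
      |(-q.1 * Real.sin θ + q.2 * Real.cos θ) - b| ≤ δ} :=
    measurableSet_le (by fun_prop) (by fun_prop)
  have h2 : MeasurableSet {q : ℝ × ℝ | c ≤ q.1 * Real.cos θ + q.2 * Real.sin θ} :=
    measurableSet_le (by fun_prop) (by fun_prop)
  have h3 : MeasurableSet {q : ℝ × ℝ | q.1 * Real.cos θ + q.2 * Real.sin θ ≤ d} :=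
    measurableSet_le (by fun_prop) (by fun_prop)
  exact h1.inter (h2.inter h3)

lemma measStr (θ b δ : ℝ) : MeasurableSet (Str θ b δ) := by
  unfold Str
  exact measurableSet_le (by fun_prop) (by fun_prop)

lemma rot_strip (θ b δ c d : ℝ) (F : ℝ × ℝ → ℝ≥0∞) (hF : Measurable F) :
    ∫⁻ σ in Icc (-δ) δ, ∫⁻ y in Icc c d,
      F (y * Real.cos θ - (b + σ) * Real.sin θ, y * Real.sin θ + (b + σ) * Real.cos θ) =
      ∫⁻ q, (SetS θ b δ c d).indicator F q := by
  have hFi : Measurable ((SetS θ b δ c d).indicator F) := hF.indicator (measSetS _ _ _ _ _)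
  have hmem : ∀ y σ : ℝ, ((y * Real.cos θ - (b + σ) * Real.sin θ,
      y * Real.sin θ + (b + σ) * Real.cos θ) ∈ SetS θ b δ c d) ↔
      (σ ∈ Icc (-δ) δ ∧ y ∈ Icc c d) := by
    intro y σ
    have h := Real.sin_sq_add_cos_sq θ
    have e1 : -(y * Real.cos θ - (b + σ) * Real.sin θ) * Real.sin θ +
        (y * Real.sin θ + (b + σ) * Real.cos θ) * Real.cos θ - b = σ := by
      linear_combination (b + σ) * h
    have e2 : (y * Real.cos θ - (b + σ) * Real.sin θ) * Real.cos θ +
        (y * Real.sin θ + (b + σ) * Real.cos θ) * Real.sin θ = y := by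
      linear_combination y * h
    simp only [SetS, Set.mem_ofPred_eq, e1, e2, Set.mem_Icc, abs_le]
  calc ∫⁻ σ in Icc (-δ) δ, ∫⁻ y in Icc c d,
      F (y * Real.cos θ - (b + σ) * Real.sin θ, y * Real.sin θ + (b + σ) * Real.cos θ)
      = ∫⁻ σ, ∫⁻ y, (SetS θ b δ c d).indicator F
        (y * Real.cos θ - (b + σ) * Real.sin θ, y * Real.sin θ + (b + σ) * Real.cos θ) := by
        rw [← lintegral_indicator measurableSet_Icc]
        apply lintegral_congr
        intro σ
        by_cases hσ : σ ∈ Icc (-δ) δ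
        · rw [Set.indicator_of_mem hσ, ← lintegral_indicator measurableSet_Icc]
          apply lintegral_congr
          intro y
          by_cases hy : y ∈ Icc c d
          · rw [Set.indicator_of_mem hy, Set.indicator_of_mem ((hmem y σ).2 ⟨hσ, hy⟩)]
          · rw [Set.indicator_of_notMem hy, Set.indicator_of_notMem]
            intro h
            exact hy ((hmem y σ).1 h).2
        · rw [Set.indicator_of_notMem hσ]
          symm
          rw [lintegral_eq_zero_iff']
          · apply Filter.Eventually.of_forall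
            intro y
            simp only [Pi.zero_apply]
            rw [Set.indicator_of_notMem]
            intro h
            exact hσ ((hmem y σ).1 h).1
          · apply Measurable.aemeasurable
            exact hFi.comp (by fun_prop)
    _ = ∫⁻ s, ∫⁻ y, (SetS θ b δ c d).indicator F
        (y * Real.cos θ - s * Real.sin θ, y * Real.sin θ + s * Real.cos θ) :=
        lintegral_add_left_eq_self (fun s => ∫⁻ y, (SetS θ b δ c d).indicator F
          (y * Real.cos θ - s * Real.sin θ, y * Real.sin θ + s * Real.cos θ)) b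
    _ = ∫⁻ q, (SetS θ b δ c d).indicator F q := by
        rw [← lintegral_rot θ _ hFi, Measure.volume_eq_prod, lintegral_prod_symm]
        apply Measurable.aemeasurable
        exact hFi.comp (by fun_prop)

/-- measure of the set where an affine function is small -/
lemma vol_affine (a b δ : ℝ) (ha : a ≠ 0) :
    volume {y : ℝ | |y * a + b| ≤ δ} ≤ ENNReal.ofReal (2 * (δ / |a|)) := by
  rw [← Real.volume_closedBall (-b / a)]
  apply measure_mono
  intro y hy
  rw [Set.mem_ofPred_eq] at hy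
  rw [mem_closedBall, Real.dist_eq, le_div_iff₀ (abs_pos.2 ha), ← abs_mul]
  have : (y - -b / a) * a = y * a + b := by field_simp; ring
  rw [this]
  exact hy

/-- intersection of a rectangle and a strip -/
lemma inter_le (θ θ' b b' δ c u : ℝ) (hδ : 0 < δ)
    (hu : |u| / 2 ≤ |Real.sin (θ - θ')|) :
    ∫⁻ q, (SetS θ b δ c (c + 4)).indicator ((Str θ' b' δ).indicator 1) q ≤
      ENNReal.ofReal (2 * δ) * ENNReal.ofReal (8 * δ / (δ + |u|)) := by
  rw [← rot_strip θ b δ c (c + 4) _ (measurable_one.indicator (measStr _ _ _))]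
  have hin : ∀ σ : ℝ, ∫⁻ y in Icc c (c + 4), (Str θ' b' δ).indicator (1 : ℝ × ℝ → ℝ≥0∞)
      (y * Real.cos θ - (b + σ) * Real.sin θ, y * Real.sin θ + (b + σ) * Real.cos θ) ≤
      ENNReal.ofReal (8 * δ / (δ + |u|)) := by
    intro σ
    have hu0 := abs_nonneg u
    rcases le_or_gt |u| δ with h | h
    · calc _ ≤ ∫⁻ y in Icc c (c + 4), (1 : ℝ≥0∞) := by
            apply lintegral_mono
            intro y
            apply Set.indicator_le_self'
            intro _ _
            exact zero_le_one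
        _ = ENNReal.ofReal 4 := by
            rw [lintegral_one, Measure.restrict_apply_univ, Real.volume_Icc]
            congr 1
            ring
        _ ≤ _ := by
            apply ENNReal.ofReal_le_ofReal
            rw [le_div_iff₀ (by linarith)]
            linarith
    · have ha : Real.sin (θ - θ') ≠ 0 := by
        intro h0
        rw [h0, abs_zero] at hu
        linarith
      calc _ ≤ ∫⁻ y, (Str θ' b' δ).indicator (1 : ℝ × ℝ → ℝ≥0∞)
            (y * Real.cos θ - (b + σ) * Real.sin θ, y * Real.sin θ + (b + σ) * Real.cos θ) :=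
            setLIntegral_le_lintegral _ _
        _ = ∫⁻ y, {y : ℝ | |y * Real.sin (θ - θ') + ((b + σ) * Real.cos (θ - θ') - b')| ≤
              δ}.indicator (1 : ℝ → ℝ≥0∞) y := by
            apply lintegral_congr
            intro y
            have e1 : -(y * Real.cos θ - (b + σ) * Real.sin θ) * Real.sin θ' +
                (y * Real.sin θ + (b + σ) * Real.cos θ) * Real.cos θ' - b' =
                y * Real.sin (θ - θ') + ((b + σ) * Real.cos (θ - θ') - b') := by
              rw [Real.sin_sub, Real.cos_sub]; ring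
            have e2 : ((y * Real.cos θ - (b + σ) * Real.sin θ,
                y * Real.sin θ + (b + σ) * Real.cos θ) ∈ Str θ' b' δ) ↔
                y ∈ {y : ℝ | |y * Real.sin (θ - θ') + ((b + σ) * Real.cos (θ - θ') - b')| ≤ δ} := by
              simp only [Str, Set.mem_ofPred_eq, e1]
            by_cases hy : y ∈ {y : ℝ | |y * Real.sin (θ - θ') +
                ((b + σ) * Real.cos (θ - θ') - b')| ≤ δ}
            · rw [Set.indicator_of_mem hy, Set.indicator_of_mem (e2.2 hy)]
              rfl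
            · rw [Set.indicator_of_notMem hy, Set.indicator_of_notMem]
              intro h'
              exact hy (e2.1 h')
        _ = volume {y : ℝ | |y * Real.sin (θ - θ') + ((b + σ) * Real.cos (θ - θ') - b')| ≤ δ} := by
            rw [lintegral_indicator_one]
            exact measurableSet_le (by fun_prop) (by fun_prop)
        _ ≤ ENNReal.ofReal (2 * (δ / |Real.sin (θ - θ')|)) := vol_affine _ _ _ ha
        _ ≤ _ := by
            apply ENNReal.ofReal_le_ofReal
            have ha' : 0 < |Real.sin (θ - θ')| := abs_pos.2 ha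
            rw [← mul_div_assoc, div_le_div_iff₀ ha' (by linarith)]
            nlinarith
  calc _ ≤ ∫⁻ σ in Icc (-δ) δ, ENNReal.ofReal (8 * δ / (δ + |u|)) :=
        lintegral_mono fun σ => hin σ
    _ = ENNReal.ofReal (2 * δ) * ENNReal.ofReal (8 * δ / (δ + |u|)) := by
        rw [setLIntegral_const, Real.volume_Icc, mul_comm]
        congr 2
        ring

/-- nearest multiple of `π` -/
lemma near_pi (φ : ℝ) (h : |φ| ≤ 2 * Real.pi) : ∃ i ∈ Finset.Icc (-2 : ℤ) 2,
    |φ - i * Real.pi| / 2 ≤ |Real.sin φ| := by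
  have hpi := Real.pi_pos
  have hpi4 := Real.pi_le_four
  set x := φ / Real.pi with hx
  have hx2 : |x| ≤ 2 := by
    rw [hx, abs_div, abs_of_pos hpi, div_le_iff₀ hpi]
    exact h
  have hx2' := abs_le.1 hx2
  refine ⟨round x, ?_, ?_⟩
  · rw [Finset.mem_Icc, round_eq]
    constructor
    · rw [Int.le_floor]
      push_cast
      linarith
    · have : ⌊x + 1 / 2⌋ < 3 := by
        rw [Int.floor_lt]
        push_cast
        linarith
      omega
  · have h1 := abs_sub_round x
    have e1 : φ - (round x : ℤ) * Real.pi = (x - round x) * Real.pi := by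
      rw [hx]; field_simp
    have h2 : |φ - (round x : ℤ) * Real.pi| ≤ Real.pi / 2 := by
      rw [e1, abs_mul, abs_of_pos hpi]
      nlinarith
    have h3 := Real.mul_abs_le_abs_sin h2
    have h4 : |Real.sin (φ - (round x : ℤ) * Real.pi)| = |Real.sin φ| := by
      rw [Real.sin_sub_int_mul_pi, abs_mul, abs_zpow]
      simp
    rw [h4] at h3
    refine le_trans ?_ h3
    rw [div_mul_eq_mul_div, div_le_div_iff₀ (by norm_num) hpi]
    nlinarith [abs_nonneg (φ - (round x : ℤ) * Real.pi)]

/-- the logarithmic integral -/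
lemma log_int (δ M : ℝ) (hδ : 0 < δ) (hM : 0 < M) :
    ∫⁻ u in Icc (-M) M, ENNReal.ofReal (4 / (δ + |u|)) ≤
      ENNReal.ofReal (8 * Real.log ((δ + M) / δ)) := by
  have hcont : Continuous (fun u : ℝ => 4 / (δ + |u|)) := by
    apply Continuous.div continuous_const (by fun_prop)
    intro u
    have := abs_nonneg u
    linarith
  have hI : ∀ a b : ℝ, IntervalIntegrable (fun u : ℝ => 4 / (δ + |u|)) volume a b := fun a b =>
    hcont.intervalIntegrable a b
  rw [← ofReal_integral_eq_lintegral_ofReal (hcont.continuousOn.integrableOn_Icc)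
    (Filter.Eventually.of_forall fun u => by
      have := abs_nonneg u
      show (0 : ℝ) ≤ 4 / (δ + |u|)
      positivity)]
  apply ENNReal.ofReal_le_ofReal
  rw [integral_Icc_eq_integral_Ioc, ← intervalIntegral.integral_of_le (by linarith),
    ← intervalIntegral.integral_add_adjacent_intervals (hI (-M) 0) (hI 0 M)]
  have h1 : ∫ u in (0 : ℝ)..M, 4 / (δ + |u|) = 4 * Real.log ((δ + M) / δ) := by
    have e1 : ∫ u in (0 : ℝ)..M, 4 / (δ + |u|) = ∫ u in (0 : ℝ)..M, 4 * (δ + u)⁻¹ := by
      apply intervalIntegral.integral_congr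
      intro u hu
      rw [Set.uIcc_of_le hM.le] at hu
      simp only
      rw [abs_of_nonneg hu.1, div_eq_mul_inv]
    rw [e1, intervalIntegral.integral_const_mul,
      intervalIntegral.integral_comp_add_left (fun u : ℝ => u⁻¹) δ, add_zero,
      integral_inv_of_pos hδ (by linarith)]
  have h2 : ∫ u in (-M)..(0 : ℝ), 4 / (δ + |u|) = ∫ u in (0 : ℝ)..M, 4 / (δ + |u|) := by
    have := intervalIntegral.integral_comp_neg (a := 0) (b := M) (fun u : ℝ => 4 / (δ + |u|))
    rw [neg_zero] at this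
    rw [← this]
    apply intervalIntegral.integral_congr
    intro u _
    simp only [abs_neg]
  rw [h2, h1]
  linarith

/-- at most five intervals contain a point -/
lemma five (y : ℝ) : ∑' j : ℤ, (Icc ((j : ℝ) - 1) (j + 3)).indicator (1 : ℝ → ℝ≥0∞) y ≤ 5 := by
  rw [tsum_eq_sum (s := Finset.Icc (⌈y - 3⌉) (⌊y + 1⌋))]
  · calc ∑ j ∈ Finset.Icc (⌈y - 3⌉) (⌊y + 1⌋), (Icc ((j : ℝ) - 1) (j + 3)).indicator
          (1 : ℝ → ℝ≥0∞) y ≤ ∑ j ∈ Finset.Icc (⌈y - 3⌉) (⌊y + 1⌋), (1 : ℝ≥0∞) := by
          apply Finset.sum_le_sum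
          intro j _
          apply Set.indicator_le_self'
          intro _ _
          exact zero_le_one
      _ = ((Finset.Icc (⌈y - 3⌉) (⌊y + 1⌋)).card : ℝ≥0∞) := by simp
      _ ≤ 5 := by
          have h1 : (Finset.Icc (⌈y - 3⌉) (⌊y + 1⌋)).card ≤ 5 := by
            rw [Int.card_Icc]
            have h2 := Int.floor_le (y + 1)
            have h3 := Int.le_ceil (y - 3)
            have h4 : ((⌊y + 1⌋ : ℤ) : ℝ) - (⌈y - 3⌉ : ℤ) ≤ 4 := by linarith
            have h5 : (⌊y + 1⌋ : ℤ) - ⌈y - 3⌉ ≤ 4 := by exact_mod_cast h4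
            omega
          exact_mod_cast h1
  · intro j hj
    apply Set.indicator_of_notMem
    intro h
    apply hj
    rw [Finset.mem_Icc]
    constructor
    · rw [Int.ceil_le]; linarith [h.2]
    · rw [Int.le_floor]; linarith [h.1]

/-- the kernel -/
noncomputable def Ker (β : ℝ → ℝ) (δ : ℝ) (ω : ℤ × ℝ) (q : ℝ × ℝ) : ℝ≥0∞ :=
  (Ioo (-Real.pi) Real.pi).indicator 1 ω.2 * ((ENNReal.ofReal (2 * δ))⁻¹ *
    (SetS ω.2 (β ω.2) δ ((ω.1 : ℝ) - 1) (ω.1 + 3)).indicator 1 q)

lemma measKer (β : ℝ → ℝ) (hβ : Measurable β) (δ : ℝ) :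
    Measurable (Function.uncurry (Ker β δ)) := by
  have hc : Measurable (fun p : (ℤ × ℝ) × (ℝ × ℝ) => ((p.1.1 : ℤ) : ℝ)) :=
    (Measurable.of_discrete (f := fun j : ℤ => (j : ℝ))).comp
      (measurable_fst.comp measurable_fst)
  have hb : Measurable (fun p : (ℤ × ℝ) × (ℝ × ℝ) => β p.1.2) :=
    hβ.comp (measurable_snd.comp measurable_fst)
  have h1 : MeasurableSet {p : (ℤ × ℝ) × (ℝ × ℝ) |
      |(-p.2.1 * Real.sin p.1.2 + p.2.2 * Real.cos p.1.2) - β p.1.2| ≤ δ} :=
    measurableSet_le (by fun_prop) (by fun_prop)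
  have h2 : MeasurableSet {p : (ℤ × ℝ) × (ℝ × ℝ) |
      (p.1.1 : ℝ) - 1 ≤ p.2.1 * Real.cos p.1.2 + p.2.2 * Real.sin p.1.2} :=
    measurableSet_le (by fun_prop) (by fun_prop)
  have h3 : MeasurableSet {p : (ℤ × ℝ) × (ℝ × ℝ) |
      p.2.1 * Real.cos p.1.2 + p.2.2 * Real.sin p.1.2 ≤ (p.1.1 : ℝ) + 3} :=
    measurableSet_le (by fun_prop) (by fun_prop)
  have h4 : Measurable (fun p : (ℤ × ℝ) × (ℝ × ℝ) =>
      (SetS p.1.2 (β p.1.2) δ ((p.1.1 : ℝ) - 1) (p.1.1 + 3)).indicator
        (1 : ℝ × ℝ → ℝ≥0∞) p.2) := by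
    have h5 := (measurable_one (α := ℝ≥0∞)
      (β := (ℤ × ℝ) × (ℝ × ℝ))).indicator (h1.inter (h2.inter h3))
    exact h5
  have h6 : Measurable (fun p : (ℤ × ℝ) × (ℝ × ℝ) =>
      (Ioo (-Real.pi) Real.pi).indicator (1 : ℝ → ℝ≥0∞) p.1.2) :=
    (measurable_one.indicator measurableSet_Ioo).comp (measurable_snd.comp measurable_fst)
  exact h6.mul (h4.const_mul _)

lemma Ker_le (β : ℝ → ℝ) (δ θ : ℝ) (j : ℤ) (q : ℝ × ℝ) :
    Ker β δ (j, θ) q ≤ ((ENNReal.ofReal (2 * δ))⁻¹ * (Str θ (β θ) δ).indicator 1 q) *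
      (Icc ((j : ℝ) - 1) (j + 3)).indicator 1 (q.1 * Real.cos θ + q.2 * Real.sin θ) := by
  unfold Ker
  simp only
  calc _ ≤ 1 * ((ENNReal.ofReal (2 * δ))⁻¹ *
        (SetS θ (β θ) δ ((j : ℝ) - 1) (j + 3)).indicator 1 q) := by
        gcongr
        apply Set.indicator_le_self'
        intro _ _
        exact zero_le_one
    _ = (ENNReal.ofReal (2 * δ))⁻¹ *
        (SetS θ (β θ) δ ((j : ℝ) - 1) (j + 3)).indicator 1 q := one_mul _
    _ ≤ _ := by
        rw [mul_assoc]
        gcongr
        by_cases hq : q ∈ SetS θ (β θ) δ ((j : ℝ) - 1) (j + 3)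
        · have h1 : q ∈ Str θ (β θ) δ := hq.1
          have h2 : q.1 * Real.cos θ + q.2 * Real.sin θ ∈ Icc ((j : ℝ) - 1) (j + 3) := hq.2
          rw [Set.indicator_of_mem hq, Set.indicator_of_mem h1, Set.indicator_of_mem h2]
          simp
        · rw [Set.indicator_of_notMem hq]
          exact zero_le

lemma inner_bound (β : ℝ → ℝ) (hβ : Measurable β) (δ : ℝ) (hδ : 0 < δ) (θ θ' : ℝ) (j : ℤ)
    (hφ : |θ - θ'| ≤ 2 * Real.pi) :
    ∑' j' : ℤ, ∫⁻ q, Ker β δ (j, θ) q * Ker β δ (j', θ') q ≤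
      5 * ∑ i ∈ Finset.Icc (-2 : ℤ) 2, ENNReal.ofReal (4 / (δ + |θ - θ' - i * Real.pi|)) := by
  have hK := measKer β hβ δ
  have hKm : ∀ ω, Measurable (Ker β δ ω) := fun ω => hK.comp measurable_prodMk_left
  set c : ℝ≥0∞ := (ENNReal.ofReal (2 * δ))⁻¹ with hc
  have hd0 : ENNReal.ofReal (2 * δ) ≠ 0 := by
    rw [Ne, ENNReal.ofReal_eq_zero, not_le]; positivity
  obtain ⟨i, hi, hu⟩ := near_pi (θ - θ') hφ
  have hKK : ∀ j' : ℤ, AEMeasurable (fun q => Ker β δ (j, θ) q * Ker β δ (j', θ') q)
      (volume : Measure (ℝ × ℝ)) := fun j' => ((hKm _).mul (hKm _)).aemeasurable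
  rw [← lintegral_tsum hKK]
  calc ∫⁻ q, ∑' j' : ℤ, Ker β δ (j, θ) q * Ker β δ (j', θ') q
      ≤ ∫⁻ q, (c * c * 5) * (SetS θ (β θ) δ ((j : ℝ) - 1) (((j : ℝ) - 1) + 4)).indicator
        ((Str θ' (β θ') δ).indicator 1) q := by
        apply lintegral_mono
        intro q
        simp only
        rw [ENNReal.tsum_mul_left]
        have h1 : ∑' j' : ℤ, Ker β δ (j', θ') q ≤
            (c * (Str θ' (β θ') δ).indicator 1 q) * 5 := by
          refine (ENNReal.tsum_le_tsum fun j' => Ker_le β δ θ' j' q).trans ?_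
          rw [ENNReal.tsum_mul_left]
          gcongr
          exact five _
        have h2 : Ker β δ (j, θ) q ≤ c *
            (SetS θ (β θ) δ ((j : ℝ) - 1) (((j : ℝ) - 1) + 4)).indicator 1 q := by
          have e : ((j : ℝ) - 1) + 4 = j + 3 := by ring
          rw [e]
          unfold Ker
          simp only
          calc _ ≤ 1 * (c * (SetS θ (β θ) δ ((j : ℝ) - 1) (j + 3)).indicator 1 q) := by
                gcongr
                apply Set.indicator_le_self'
                intro _ _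
                exact zero_le_one
            _ = _ := one_mul _
        calc _ ≤ (c * (SetS θ (β θ) δ ((j : ℝ) - 1) (((j : ℝ) - 1) + 4)).indicator 1 q) *
            ((c * (Str θ' (β θ') δ).indicator 1 q) * 5) := mul_le_mul' h2 h1
          _ = (c * c * 5) * ((SetS θ (β θ) δ ((j : ℝ) - 1) (((j : ℝ) - 1) + 4)).indicator 1 q *
              (Str θ' (β θ') δ).indicator 1 q) := by ring
          _ = _ := by
              congr 1
              by_cases hq : q ∈ SetS θ (β θ) δ ((j : ℝ) - 1) (((j : ℝ) - 1) + 4)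
              · rw [Set.indicator_of_mem hq, Set.indicator_of_mem hq]
                simp
              · rw [Set.indicator_of_notMem hq, Set.indicator_of_notMem hq, zero_mul]
    _ = (c * c * 5) * ∫⁻ q, (SetS θ (β θ) δ ((j : ℝ) - 1) (((j : ℝ) - 1) + 4)).indicator
        ((Str θ' (β θ') δ).indicator 1) q := by
        rw [lintegral_const_mul]
        exact (measurable_one.indicator (measStr _ _ _)).indicator (measSetS _ _ _ _ _)
    _ ≤ (c * c * 5) * (ENNReal.ofReal (2 * δ) *
        ENNReal.ofReal (8 * δ / (δ + |θ - θ' - i * Real.pi|))) := by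
        gcongr
        exact inter_le θ θ' (β θ) (β θ') δ _ _ hδ hu
    _ = 5 * ENNReal.ofReal (4 / (δ + |θ - θ' - i * Real.pi|)) := by
        have hab := abs_nonneg (θ - θ' - i * Real.pi)
        have e1 : ENNReal.ofReal (8 * δ / (δ + |θ - θ' - i * Real.pi|)) =
            ENNReal.ofReal (2 * δ) * ENNReal.ofReal (4 / (δ + |θ - θ' - i * Real.pi|)) := by
          rw [← ENNReal.ofReal_mul (by positivity)]
          congr 1
          ring
        have e2 : c * ENNReal.ofReal (2 * δ) = 1 :=
          ENNReal.inv_mul_cancel hd0 ENNReal.ofReal_ne_top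
        rw [e1]
        calc _ = 5 * ((c * ENNReal.ofReal (2 * δ)) * (c * ENNReal.ofReal (2 * δ))) *
            ENNReal.ofReal (4 / (δ + |θ - θ' - i * Real.pi|)) := by ring
          _ = _ := by rw [e2, one_mul, mul_one]
    _ ≤ _ := by
        gcongr
        exact Finset.single_le_sum (f := fun i : ℤ =>
          ENNReal.ofReal (4 / (δ + |θ - θ' - i * Real.pi|))) (fun _ _ => zero_le) hi

lemma hB_bound (β : ℝ → ℝ) (hβ : Measurable β) (δ : ℝ) (hδ : 0 < δ) (hδ1 : δ < 1) (ω : ℤ × ℝ) :
    ∫⁻ ω', ∫⁻ q, Ker β δ ω q * Ker β δ ω' q ∂(volume : Measure (ℝ × ℝ))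
      ∂((Measure.count : Measure ℤ).prod (volume.restrict (Ioo (-Real.pi) Real.pi))) ≤
      ENNReal.ofReal (600 * (1 + Real.log (1 / δ))) := by
  have hpi := Real.pi_pos
  have hpi4 := Real.pi_le_four
  have hK := measKer β hβ δ
  obtain ⟨j, θ⟩ := ω
  by_cases hθ : θ ∈ Ioo (-Real.pi) Real.pi
  · have hmeas : Measurable (fun ω' : ℤ × ℝ => ∫⁻ q, Ker β δ (j, θ) q * Ker β δ ω' q) := by
      apply Measurable.lintegral_prod_right'
        (f := fun p : (ℤ × ℝ) × (ℝ × ℝ) => Ker β δ (j, θ) p.2 * Ker β δ p.1 p.2)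
      exact (hK.comp (measurable_const.prodMk measurable_snd)).mul hK
    rw [lintegral_prod_symm _ hmeas.aemeasurable]
    have h1 : ∀ θ' ∈ Ioo (-Real.pi) Real.pi,
        ∫⁻ j' : ℤ, (∫⁻ q, Ker β δ (j, θ) q * Ker β δ (j', θ') q) ∂Measure.count ≤
        5 * ∑ i ∈ Finset.Icc (-2 : ℤ) 2, ENNReal.ofReal (4 / (δ + |θ - θ' - i * Real.pi|)) := by
      intro θ' hθ'
      rw [lintegral_count]
      apply inner_bound β hβ δ hδ
      rw [abs_le]
      constructor <;> linarith [hθ.1, hθ.2, hθ'.1, hθ'.2]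
    have hgm : ∀ i : ℤ, Measurable (fun θ' : ℝ =>
        ENNReal.ofReal (4 / (δ + |θ - θ' - i * Real.pi|))) := by
      intro i
      fun_prop
    calc _ ≤ ∫⁻ θ' in Ioo (-Real.pi) Real.pi, 5 * ∑ i ∈ Finset.Icc (-2 : ℤ) 2,
          ENNReal.ofReal (4 / (δ + |θ - θ' - i * Real.pi|)) :=
          setLIntegral_mono' measurableSet_Ioo h1
      _ = 5 * ∑ i ∈ Finset.Icc (-2 : ℤ) 2, ∫⁻ θ' in Ioo (-Real.pi) Real.pi,
          ENNReal.ofReal (4 / (δ + |θ - θ' - i * Real.pi|)) := by
          rw [lintegral_const_mul _ (Finset.measurable_fun_sum _ fun i _ => hgm i),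
            lintegral_finsetSum _ fun i _ => hgm i]
      _ ≤ 5 * ∑ i ∈ Finset.Icc (-2 : ℤ) 2,
          ENNReal.ofReal (8 * Real.log ((δ + 4 * Real.pi) / δ)) := by
          gcongr with i hi
          rw [Finset.mem_Icc] at hi
          have hi1 : (-2 : ℝ) ≤ i := by exact_mod_cast hi.1
          have hi2 : (i : ℝ) ≤ 2 := by exact_mod_cast hi.2
          refine le_trans ?_ (log_int δ (4 * Real.pi) hδ (by positivity))
          rw [← lintegral_indicator measurableSet_Ioo, ← lintegral_indicator measurableSet_Icc,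
            ← lintegral_sub_left_eq_self _ (θ - i * Real.pi)]
          apply lintegral_mono
          intro θ'
          simp only
          by_cases h : θ - i * Real.pi - θ' ∈ Ioo (-Real.pi) Real.pi
          · rw [Set.indicator_of_mem h, Set.indicator_of_mem]
            · apply le_of_eq
              congr 4
              ring
            · constructor <;> nlinarith [hθ.1, hθ.2, h.1, h.2]
          · rw [Set.indicator_of_notMem h]
            exact zero_le
      _ = ENNReal.ofReal (200 * Real.log ((δ + 4 * Real.pi) / δ)) := by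
          rw [Finset.sum_const]
          have : (Finset.Icc (-2 : ℤ) 2).card = 5 := rfl
          rw [this, nsmul_eq_mul]
          have e5 : (5 : ℝ≥0∞) = ENNReal.ofReal 5 := by norm_num
          have e5' : ((5 : ℕ) : ℝ≥0∞) = ENNReal.ofReal 5 := by norm_num
          rw [e5', e5, ← mul_assoc, ← ENNReal.ofReal_mul (by norm_num),
            ← ENNReal.ofReal_mul (by norm_num)]
          congr 1
          ring
      _ ≤ _ := by
          apply ENNReal.ofReal_le_ofReal
          have h2 : Real.log ((δ + 4 * Real.pi) / δ) ≤ 3 + Real.log (1 / δ) := by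
            have e6 : (δ + 4 * Real.pi) / δ = (δ + 4 * Real.pi) * (1 / δ) := by ring
            rw [e6, Real.log_mul (by positivity) (by positivity)]
            have h3 : Real.log (δ + 4 * Real.pi) ≤ 3 := by
              rw [Real.log_le_iff_le_exp (by positivity)]
              have h4 : (17 : ℝ) ≤ Real.exp 3 := by
                have := Real.exp_one_gt_d9
                have e7 : Real.exp 3 = Real.exp 1 ^ 3 := by
                  rw [← Real.exp_nat_mul]; norm_num
                rw [e7]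
                have : (2.7 : ℝ) ^ 3 ≤ Real.exp 1 ^ 3 :=
                  pow_le_pow_left₀ (by norm_num) (by linarith) 3
                norm_num at this ⊢
                linarith
              linarith
            linarith
          have h5 : 0 ≤ Real.log (1 / δ) := by
            apply Real.log_nonneg
            rw [le_div_iff₀ hδ]
            linarith
          nlinarith
  · have h0 : ∀ q, Ker β δ (j, θ) q = 0 := by
      intro q
      unfold Ker
      simp only
      rw [Set.indicator_of_notMem hθ, zero_mul]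
    simp only [h0, zero_mul, lintegral_zero]
    exact zero_le

end PlAux

open PlAux

theorem planar : ∃ C : ℝ, 0 < C ∧ ∀ (β : ℝ → ℝ) (δ : ℝ) (h : ℝ → ℝ → ℝ≥0∞), Measurable β →
    0 < δ → δ < 1 → Measurable (Function.uncurry h) →
    ∑' j : ℤ, ∫⁻ θ in Ioo (-Real.pi) Real.pi,
      ((ENNReal.ofReal (2 * δ))⁻¹ * ∫⁻ σ in Icc (-δ) δ, ∫⁻ y in Icc ((j : ℝ) - 1) (j + 3),
        h (y * Real.cos θ - (β θ + σ) * Real.sin θ) (y * Real.sin θ + (β θ + σ) * Real.cos θ)) ^ 2
    ≤ ENNReal.ofReal (C * (1 + Real.log (1 / δ))) * ∫⁻ q₁, ∫⁻ q₂, h q₁ q₂ ^ 2 := by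
  refine ⟨600, by norm_num, ?_⟩
  intro β δ h hβ hδ hδ1 hh
  have hK := measKer β hβ δ
  have key := tt_star ((Measure.count : Measure ℤ).prod (volume.restrict (Ioo (-Real.pi) Real.pi)))
    (volume : Measure (ℝ × ℝ)) (Ker β δ) hK _ (hB_bound β hβ δ hδ hδ1) (Function.uncurry h) hh
  have e1 : ∫⁻ q, Function.uncurry h q ^ 2 = ∫⁻ q₁, ∫⁻ q₂, h q₁ q₂ ^ 2 := by
    rw [Measure.volume_eq_prod, lintegral_prod]
    · rfl
    · exact (hh.pow_const 2).aemeasurable
  rw [e1] at key
  refine le_trans (le_of_eq ?_) key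
  have hTm : Measurable (fun ω : ℤ × ℝ => (∫⁻ q, Ker β δ ω q * Function.uncurry h q) ^ 2) := by
    apply Measurable.pow_const
    apply Measurable.lintegral_prod_right'
      (f := fun p : (ℤ × ℝ) × (ℝ × ℝ) => Ker β δ p.1 p.2 * Function.uncurry h p.2)
    exact hK.mul (hh.comp measurable_snd)
  rw [lintegral_prod _ hTm.aemeasurable, lintegral_count]
  congr 1
  funext j
  apply setLIntegral_congr_fun measurableSet_Ioo
  intro θ hθ
  simp only
  congr 1
  have e2 := rot_strip θ (β θ) δ ((j : ℝ) - 1) (j + 3) (Function.uncurry h) hh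
  have e3 : ∫⁻ q, Ker β δ (j, θ) q * Function.uncurry h q =
      (ENNReal.ofReal (2 * δ))⁻¹ * ∫⁻ q, (SetS θ (β θ) δ ((j : ℝ) - 1) (j + 3)).indicator
        (Function.uncurry h) q := by
    rw [← lintegral_const_mul _ (hh.indicator (measSetS _ _ _ _ _))]
    apply lintegral_congr
    intro q
    unfold Ker
    simp only
    rw [Set.indicator_of_mem hθ]
    by_cases hq : q ∈ SetS θ (β θ) δ ((j : ℝ) - 1) (j + 3)
    · rw [Set.indicator_of_mem hq, Set.indicator_of_mem hq]
      simp
    · rw [Set.indicator_of_notMem hq, Set.indicator_of_notMem hq]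
      simp
  rw [e3, ← e2]
  rfl

end Pool.Agent.H742R2.Kk
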