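import Pool.Agent.H742R2.Kk.Defs

set_option autoImplicit false

open MeasureTheory Set Filter Topology ENNReal NNReal Metric

namespace Pool.Agent.H742R2.Kk

theorem mem_tub_rot {n : ℕ} (U : E n ≃ₗᵢ[ℝ] E n) (δ : ℝ) (e a p : E n) (k : ℤ) :
    U p ∈ tub δ (U e) a k ↔ p ∈ tub δ e (U.symm a) k := by
  have h1 : (inner ℝ (U p) (U e) : ℝ) = inner ℝ p e := U.inner_map_map p e
  have h2 : U p - a = U (p - U.symm a) := by simp
  have h3 : (inner ℝ (U p - a) (U e) : ℝ) = inner ℝ (p - U.symm a) e := by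
    rw [h2]; exact U.inner_map_map _ _
  have h4 : ‖(U p - a) - (inner ℝ (U p - a) (U e) : ℝ) • U e‖ =
      ‖(p - U.symm a) - (inner ℝ (p - U.symm a) e : ℝ) • e‖ := by
    rw [h3, h2, ← map_smul, ← map_sub, U.norm_map]
  simp only [tub, mem_setOf_eq, h1, h4]

theorem wav_rot {m : ℕ} {δ : ℝ} (a : E (m + 1) → E (m + 1)) (U : E (m + 1) ≃ₗᵢ[ℝ] E (m + 1))
    (k : ℤ) (f : E (m + 1) → ℝ≥0∞) (hf : Measurable f) (e : E (m + 1)) :
    wav δ a k f (U e) = wav δ (fun e => U.symm (a (U e))) k (fun p => f (U p)) e := by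
  unfold wav
  congr 1
  have hmeas : ∀ (e b : E (m + 1)), MeasurableSet (tub δ e b k) := by
    intro e b
    have hc1 : Continuous (fun p : E (m + 1) => (inner ℝ p e : ℝ)) := by fun_prop
    have hc2 : Continuous (fun p : E (m + 1) =>
      ‖(p - b) - (inner ℝ (p - b) e : ℝ) • e‖) := by fun_prop
    exact ((isClosed_le continuous_const hc1).inter ((isClosed_le hc1 continuous_const).inter
      (isClosed_le hc2 continuous_const))).measurableSet
  rw [← lintegral_indicator (hmeas _ _), ← lintegral_indicator (hmeas _ _)]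
  rw [← U.measurePreserving.lintegral_comp_emb U.toHomeomorph.measurableEmbedding]
  apply lintegral_congr
  intro p
  by_cases hp : p ∈ tub δ e (U.symm (a (U e))) k
  · rw [indicator_of_mem hp, indicator_of_mem ((mem_tub_rot U δ e _ p k).2 hp)]
  · rw [indicator_of_notMem hp, indicator_of_notMem (fun h => hp ((mem_tub_rot U δ e _ p k).1 h))]

theorem kb_rot {m : ℕ} {δ : ℝ} {a : E (m + 1) → E (m + 1)} {A : ℝ≥0∞} (ha : Measurable a)
    (U : E (m + 1) ≃ₗᵢ[ℝ] E (m + 1))
    (h : KB m δ (fun e => U.symm (a (U e))) A) : KB m δ a A := by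
  intro f hf
  have hfU : Measurable (fun p => f (U p)) := hf.comp U.continuous.measurable
  have h1 := h (fun p => f (U p)) hfU
  have h2 : ∫⁻ p, f (U p) ^ (m + 1) = ∫⁻ p, f p ^ (m + 1) :=
    U.measurePreserving.lintegral_comp_emb U.toHomeomorph.measurableEmbedding
      (fun p => f p ^ (m + 1))
  rw [h2] at h1
  refine le_trans (le_of_eq ?_) h1
  rw [← lintegral_indicator isClosed_closedBall.measurableSet,
    ← lintegral_indicator isClosed_closedBall.measurableSet,
    ← U.measurePreserving.lintegral_comp_emb U.toHomeomorph.measurableEmbedding]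
  apply lintegral_congr
  intro x
  have hx : U x ∈ closedBall (0 : E (m + 1)) 1 ↔ x ∈ closedBall (0 : E (m + 1)) 1 := by
    simp [U.norm_map]
  by_cases hm : x ∈ closedBall (0 : E (m + 1)) 1
  · rw [indicator_of_mem hm, indicator_of_mem (hx.2 hm)]
    congr 1
    apply iSup_congr
    intro k
    rw [U.norm_map, ← map_smul, wav_rot a U k f hf]
  · rw [indicator_of_notMem hm, indicator_of_notMem (fun h => hm (hx.1 h))]

end Pool.Agent.H742R2.Kk
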