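import Pool.Agent.H742R2.Kk.Defs

set_option autoImplicit false

open MeasureTheory Set Filter Topology ENNReal NNReal Metric

namespace Pool.Agent.H742R2.Kk

/-- A nonnegative measurable function of the direction: surface integral versus ball integral. -/
theorem sphere_le_ball (n : ℕ) {G : E (n + 1) → ℝ≥0∞} (hG : Measurable G) :
    ∫⁻ e : sphere (0 : E (n + 1)) 1, G e ∂(volume : Measure (E (n + 1))).toSphere
      ≤ (n + 1) * ∫⁻ x in closedBall (0 : E (n + 1)) 1, G (‖x‖⁻¹ • x) := by
  set μ : Measure (E (n + 1)) := volume with hμ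
  set F : sphere (0 : E (n + 1)) 1 × Ioi (0 : ℝ) → ℝ≥0∞ :=
    fun p => G p.1 * (Iio (⟨1, mem_Ioi.2 one_pos⟩ : Ioi (0 : ℝ))).indicator 1 p.2 with hF
  have hFm : Measurable F := by
    refine Measurable.mul (hG.comp (measurable_subtype_coe.comp measurable_fst)) ?_
    exact (measurable_one.indicator measurableSet_Iio).comp measurable_snd
  have hdim : Module.finrank ℝ (E (n + 1)) - 1 = n := by simp
  have h1 : ∫⁻ p, F p ∂(μ.toSphere.prod (Measure.volumeIoiPow n)) =
      (∫⁻ e : sphere (0 : E (n + 1)) 1, G e ∂μ.toSphere) * ENNReal.ofReal (1 / (n + 1)) := by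
    rw [lintegral_prod _ hFm.aemeasurable]
    have : ∀ x : sphere (0 : E (n + 1)) 1, ∫⁻ y, F (x, y) ∂(Measure.volumeIoiPow n) =
        G x * ENNReal.ofReal (1 / (n + 1)) := by
      intro x
      simp only [hF]
      rw [lintegral_const_mul _ (measurable_one.indicator measurableSet_Iio),
        lintegral_indicator_one measurableSet_Iio, Measure.volumeIoiPow_apply_Iio]
      simp
    simp_rw [this]
    exact lintegral_mul_const _ (hG.comp measurable_subtype_coe)
  have h2 : ∫⁻ x : ({0}ᶜ : Set (E (n + 1))), F (homeomorphUnitSphereProd (E (n + 1)) x)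
        ∂(μ.comap (↑)) = ∫⁻ p, F p ∂(μ.toSphere.prod (Measure.volumeIoiPow n)) := by
    have := μ.measurePreserving_homeomorphUnitSphereProd.lintegral_comp_emb
      (Homeomorph.measurableEmbedding _) F
    rw [hdim] at this
    exact this
  have h3 : ∫⁻ x : ({0}ᶜ : Set (E (n + 1))), F (homeomorphUnitSphereProd (E (n + 1)) x)
        ∂(μ.comap (↑)) ≤ ∫⁻ x in closedBall (0 : E (n + 1)) 1, G (‖x‖⁻¹ • x) := by
    have hpt : ∀ x : ({0}ᶜ : Set (E (n + 1))), F (homeomorphUnitSphereProd (E (n + 1)) x) =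
        (ball (0 : E (n + 1)) 1).indicator (fun x => G (‖x‖⁻¹ • x)) (x : E (n + 1)) := by
      intro x
      simp only [hF]
      by_cases hx : ‖(x : E (n + 1))‖ < 1
      · have h' : (x : E (n + 1)) ∈ ball (0 : E (n + 1)) 1 := by simpa using hx
        have h'' : (homeomorphUnitSphereProd (E (n + 1)) x).2 ∈
            Iio (⟨1, mem_Ioi.2 one_pos⟩ : Ioi (0 : ℝ)) := by
          rw [mem_Iio, ← Subtype.coe_lt_coe]
          simpa using hx
        rw [indicator_of_mem h', indicator_of_mem h'']
        simp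
      · have h' : (x : E (n + 1)) ∉ ball (0 : E (n + 1)) 1 := by simpa using hx
        have h'' : (homeomorphUnitSphereProd (E (n + 1)) x).2 ∉
            Iio (⟨1, mem_Ioi.2 one_pos⟩ : Ioi (0 : ℝ)) := by
          rw [mem_Iio, ← Subtype.coe_lt_coe]
          simpa using hx
        rw [indicator_of_notMem h', indicator_of_notMem h'', mul_zero]
    simp_rw [hpt]
    rw [lintegral_subtype_comap (measurableSet_singleton (0 : E (n + 1))).compl
      (fun x => (ball (0 : E (n + 1)) 1).indicator (fun x => G (‖x‖⁻¹ • x)) x)]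
    refine (setLIntegral_le_lintegral _ _).trans ?_
    rw [lintegral_indicator measurableSet_ball]
    exact lintegral_mono_set ball_subset_closedBall
  rw [h2, h1] at h3
  have h4 : (n + 1 : ℝ≥0∞) * ((∫⁻ e : sphere (0 : E (n + 1)) 1, G e ∂μ.toSphere) *
      ENNReal.ofReal (1 / (n + 1))) = ∫⁻ e : sphere (0 : E (n + 1)) 1, G e ∂μ.toSphere := by
    have : ENNReal.ofReal (1 / (n + 1)) = (n + 1 : ℝ≥0∞)⁻¹ := by
      rw [one_div, ENNReal.ofReal_inv_of_pos (by positivity)]
      congr 1
      rw [ENNReal.ofReal_add (by positivity) (by positivity)]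
      simp
    rw [this, mul_comm, mul_assoc, ENNReal.inv_mul_cancel (by simp) (by simp), mul_one]
  rw [← h4]
  gcongr

/-- Lower bound for the volume of a tube. -/
theorem volume_tube (m : ℕ) : ∃ c : ℝ, 0 < c ∧ ∀ (δ : ℝ) (e a : E (m + 1)), 0 < δ → ‖e‖ = 1 →
    ENNReal.ofReal (c * δ ^ m) ≤ volume {y : E (m + 1) | |inner ℝ (y - a) e| ≤ 1 / 2 ∧
      ‖(y - a) - (inner ℝ (y - a) e : ℝ) • e‖ ≤ δ} := by
  refine ⟨(2 / (m + 1)) ^ m, by positivity, ?_⟩
  intro δ e a hδ he
  have hon : Orthonormal ℝ (({0} : Set (Fin (m + 1))).domRestrict (fun _ => e)) := by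
    rw [orthonormal_iff_ite]
    rintro ⟨i, hi⟩ ⟨j, hj⟩
    simp only [mem_singleton_iff] at hi hj
    subst hi; subst hj
    change (inner ℝ e e : ℝ) = _
    rw [real_inner_self_eq_norm_sq, he]
    simp
  obtain ⟨b, hb⟩ := hon.exists_orthonormalBasis_extension_of_card_eq (by simp)
  have hb0 : b 0 = e := hb 0 rfl
  set r : Fin (m + 1) → ℝ := Fin.cons (1 / 2) (fun _ => δ / (m + 1)) with hr
  set B : Set (Fin (m + 1) → ℝ) := Set.pi univ (fun i => Icc (-(r i)) (r i)) with hB
  have hBm : MeasurableSet B := MeasurableSet.univ_pi (fun i => measurableSet_Icc)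
  have hvolB : volume B = ENNReal.ofReal ((2 / (m + 1)) ^ m * δ ^ m) := by
    rw [hB, volume_pi_pi]
    simp only [Real.volume_Icc]
    rw [Fin.prod_univ_succ]
    simp only [hr, Fin.cons_zero, Fin.cons_succ, Finset.prod_const, Finset.card_univ,
      Fintype.card_fin]
    have hnn : 0 ≤ δ / (m + 1) - -(δ / (m + 1)) := by
      have : 0 ≤ δ / (m + 1) := by positivity
      linarith
    rw [← ENNReal.ofReal_pow hnn, ← ENNReal.ofReal_mul (by norm_num)]
    congr 1
    rw [← mul_pow]
    norm_num
    congr 1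
    ring
  have hmp : MeasurePreserving (fun y : E (m + 1) => (b.repr (y - a)).ofLp) volume volume := by
    have h1 : MeasurePreserving (fun y : E (m + 1) => y - a) volume volume :=
      measurePreserving_sub_right volume a
    have h2 := b.measurePreserving_repr
    have h3 := PiLp.volume_preserving_ofLp (Fin (m + 1))
    exact h3.comp (h2.comp h1)
  rw [← hvolB, ← hmp.measure_preimage hBm.nullMeasurableSet]
  apply measure_mono
  intro y hy
  simp only [mem_preimage, hB, mem_univ_pi, mem_Icc] at hy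
  set v := y - a with hv
  have hv0 : (inner ℝ v e : ℝ) = b.repr v 0 := by
    rw [b.repr_apply_apply, hb0, real_inner_comm]
  have hsum : v = b.repr v 0 • e + ∑ i : Fin m, b.repr v i.succ • b i.succ := by
    conv_lhs => rw [← b.sum_repr v]
    rw [Fin.sum_univ_succ, hb0]
  refine ⟨?_, ?_⟩
  · have := hy 0
    rw [hv0, abs_le]
    simpa [hr] using this
  · have : v - (inner ℝ v e : ℝ) • e = ∑ i : Fin m, b.repr v i.succ • b i.succ := by
      rw [hv0]
      nth_rewrite 1 [hsum]
      abel
    rw [this]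
    calc ‖∑ i : Fin m, b.repr v i.succ • b i.succ‖ ≤ ∑ i : Fin m, ‖b.repr v i.succ • b i.succ‖ :=
          norm_sum_le _ _
      _ ≤ ∑ i : Fin m, δ / (m + 1) := by
          apply Finset.sum_le_sum
          intro i _
          rw [norm_smul, b.norm_eq_one, mul_one, Real.norm_eq_abs, abs_le]
          simpa [hr] using hy i.succ
      _ = m * (δ / (m + 1)) := by simp
      _ ≤ δ := by
          rw [mul_div_assoc', div_le_iff₀ (by positivity)]
          nlinarith

end Pool.Agent.H742R2.Kk
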