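import Pool.Agent.H742R2.Kk.Fibre
import Pool.Agent.H742R2.Kk.Polar
import Pool.Agent.H742R2.Kk.Rot

set_option autoImplicit false

open MeasureTheory Set Filter Topology ENNReal NNReal Metric

namespace Pool.Agent.H742R2.Kk

/-- The planar estimate with constant `C`, as a property. -/
def PlanarEst (C : ℝ) : Prop := ∀ (β : ℝ → ℝ) (δ : ℝ) (h : ℝ → ℝ → ℝ≥0∞), Measurable β →
    0 < δ → δ < 1 → Measurable (Function.uncurry h) →
    ∑' j : ℤ, ∫⁻ θ in Ioo (-Real.pi) Real.pi,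
      ((ENNReal.ofReal (2 * δ))⁻¹ * ∫⁻ σ in Icc (-δ) δ, ∫⁻ y in Icc ((j : ℝ) - 1) (j + 3),
        h (y * Real.cos θ - (β θ + σ) * Real.sin θ) (y * Real.sin θ + (β θ + σ) * Real.cos θ)) ^ 2
    ≤ ENNReal.ofReal (C * (1 + Real.log (1 / δ))) * ∫⁻ q₁, ∫⁻ q₂, h q₁ q₂ ^ 2

theorem norm_emb_sq {k : ℕ} (θ σ : ℝ) (p : E (k+1)) : ‖emb θ σ p‖ ^ 2 = σ ^ 2 + ‖p‖ ^ 2 := by
  rw [← real_inner_self_eq_norm_sq, ← real_inner_self_eq_norm_sq, inner_emb]; ring

theorem norm_emb_zero {k : ℕ} (θ : ℝ) (p : E (k+1)) : ‖emb θ 0 p‖ = ‖p‖ := by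
  have h := norm_emb_sq θ 0 p
  have h2 : ‖emb θ 0 p‖ ^ 2 = ‖p‖ ^ 2 := by rw [h]; ring
  exact (pow_left_inj₀ (norm_nonneg _) (norm_nonneg _) two_ne_zero).mp h2

theorem emb_zero_smul {k : ℕ} (θ c : ℝ) (p : E (k+1)) : emb θ 0 (c • p) = c • emb θ 0 p := by
  have := emb_smul θ 0 c p
  rwa [mul_zero] at this

theorem emb_neg {k : ℕ} (θ σ : ℝ) (p : E (k+1)) : emb θ (-σ) (-p) = - emb θ σ p := by
  have := emb_smul θ σ (-1) p
  simpa using this

theorem emb_sub {k : ℕ} (θ σ τ : ℝ) (p q : E (k+1)) :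
    emb θ (σ - τ) (p - q) = emb θ σ p - emb θ τ q := by
  rw [sub_eq_add_neg, sub_eq_add_neg, sub_eq_add_neg, emb_add, emb_neg]

/-- A tube around a line of the hyperplane: projection to the hyperplane. -/
theorem tub_emb {k : ℕ} {δ : ℝ} (hδ : 0 ≤ δ) (θ β τ s : ℝ) (e b q : E (k+1)) (he : ‖e‖ = 1) (j : ℤ)
    (h : emb θ τ q ∈ tub δ (emb θ 0 e) (emb θ β (b + s • e)) j) :
    |τ - β| ≤ δ ∧ q ∈ tub δ e b j := by
  obtain ⟨h1, h2, h3⟩ := h
  rw [inner_emb, mul_zero, zero_add] at h1 h2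
  rw [← emb_sub, inner_emb, mul_zero, zero_add, ← emb_zero_smul, ← emb_sub, sub_zero] at h3
  have h4 : q - (b + s • e) - (inner ℝ (q - (b + s • e)) e : ℝ) • e
      = (q - b) - (inner ℝ (q - b) e : ℝ) • e := by
    have : q - (b + s • e) = (q - b) - s • e := by abel
    rw [this, inner_sub_left, inner_smul_left, real_inner_self_eq_norm_sq, he]
    simp only [conj_trivial, one_pow, mul_one, sub_smul]
    abel
  rw [h4] at h3
  have h5 := norm_emb_sq θ (τ - β) ((q - b) - (inner ℝ (q - b) e : ℝ) • e)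
  have h6 : (τ - β) ^ 2 + ‖(q - b) - (inner ℝ (q - b) e : ℝ) • e‖ ^ 2 ≤ δ ^ 2 := by
    rw [← h5]; gcongr
  refine ⟨?_, h1, h2, ?_⟩
  · apply abs_le_of_sq_le_sq _ hδ
    nlinarith [sq_nonneg ‖(q - b) - (inner ℝ (q - b) e : ℝ) • e‖]
  · apply le_of_sq_le_sq _ hδ
    nlinarith [sq_nonneg (τ - β)]

theorem meas_tub {n : ℕ} (δ : ℝ) (e a : E n) (k : ℤ) : MeasurableSet (tub δ e a k) := by
  have h1 : IsClosed {p : E n | (k:ℝ) ≤ inner ℝ p e} :=
    isClosed_le continuous_const (by fun_prop)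
  have h2 : IsClosed {p : E n | inner ℝ p e ≤ (k:ℝ) + 1} :=
    isClosed_le (by fun_prop) continuous_const
  have h3 : IsClosed {p : E n | ‖(p - a) - (inner ℝ (p - a) e : ℝ) • e‖ ≤ δ} :=
    isClosed_le (by fun_prop) continuous_const
  exact (h1.inter (h2.inter h3)).measurableSet

/-- The average over a tube is at most twice the average over parallel slices. -/
theorem wav_le {m : ℕ} {δ : ℝ} (hδ : 0 < δ) (θ β s : ℝ) (a : E (m+2) → E (m+2))
    (a' : E (m+1) → E (m+1)) (e : E (m+1)) (he : ‖e‖ = 1)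
    (hs : a (emb θ 0 e) = emb θ β (a' e + s • e)) {f : E (m+2) → ℝ≥0∞} (hf : Measurable f) (k : ℤ) :
    wav δ a k f (emb θ 0 e) ≤ 2 * ((ENNReal.ofReal (2 * δ))⁻¹ *
      ∫⁻ σ in Icc (-δ) δ, wav δ a' k (fun q => f (emb θ (β + σ) q)) e) := by
  have hD0 : ENNReal.ofReal δ ≠ 0 := by simpa using hδ
  have hDt : ENNReal.ofReal δ ≠ ∞ := ENNReal.ofReal_ne_top
  unfold wav
  rw [hs, ← lintegral_indicator (meas_tub _ _ _ _),
    lintegral_emb θ β (hf.indicator (meas_tub _ _ _ _))]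
  have h1 : ∀ σ : ℝ, ∫⁻ q : E (m+1), (tub δ (emb θ 0 e) (emb θ β (a' e + s • e)) k).indicator f
      (emb θ (β + σ) q) ≤ (Icc (-δ) δ).indicator
        (fun σ => ∫⁻ q in tub δ e (a' e) k, f (emb θ (β + σ) q)) σ := by
    intro σ
    by_cases hσ : σ ∈ Icc (-δ) δ
    · rw [indicator_of_mem hσ, ← lintegral_indicator (meas_tub _ _ _ _)]
      apply lintegral_mono
      intro q
      by_cases hq : emb θ (β + σ) q ∈ tub δ (emb θ 0 e) (emb θ β (a' e + s • e)) k
      · have := (tub_emb hδ.le θ β (β + σ) s e (a' e) q he k hq).2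
        simp only [indicator_of_mem hq, indicator_of_mem this]
        exact le_refl _
      · simp only [indicator_of_notMem hq]
        exact zero_le
    · rw [indicator_of_notMem hσ]
      have : ∀ q : E (m+1), (tub δ (emb θ 0 e) (emb θ β (a' e + s • e)) k).indicator f
          (emb θ (β + σ) q) = 0 := by
        intro q
        apply indicator_of_notMem
        intro hq
        have h2 := (tub_emb hδ.le θ β (β + σ) s e (a' e) q he k hq).1
        rw [add_sub_cancel_left, abs_le] at h2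
        exact hσ h2
      simp [this]
  have h2 : (2:ℝ≥0∞) * (ENNReal.ofReal (2 * δ))⁻¹ = (ENNReal.ofReal δ)⁻¹ := by
    rw [ENNReal.ofReal_mul (by norm_num), ENNReal.mul_inv (Or.inl (by simp)) (Or.inl (by simp)),
      ← mul_assoc]
    simp [ENNReal.mul_inv_cancel]
  calc (ENNReal.ofReal δ ^ (m+1))⁻¹ * ∫⁻ σ : ℝ, ∫⁻ q : E (m+1),
        (tub δ (emb θ 0 e) (emb θ β (a' e + s • e)) k).indicator f (emb θ (β + σ) q)
      ≤ (ENNReal.ofReal δ ^ (m+1))⁻¹ * ∫⁻ σ : ℝ, (Icc (-δ) δ).indicator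
        (fun σ => ∫⁻ q in tub δ e (a' e) k, f (emb θ (β + σ) q)) σ := by
        gcongr with σ
        exact h1 σ
    _ = (ENNReal.ofReal δ)⁻¹ * ((ENNReal.ofReal δ ^ m)⁻¹ * ∫⁻ σ in Icc (-δ) δ,
          ∫⁻ q in tub δ e (a' e) k, f (emb θ (β + σ) q)) := by
        rw [lintegral_indicator measurableSet_Icc, ← mul_assoc, pow_succ',
          ENNReal.mul_inv (Or.inl hD0) (Or.inl hDt)]
    _ = _ := by
        rw [← mul_assoc 2, h2]
        congr 1
        rw [lintegral_const_mul']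
        exact ENNReal.inv_ne_top.mpr (pow_ne_zero _ hD0)

/-- The square root of the fibre integral. -/
noncomputable def hh {m : ℕ} (f : E (m+2) → ℝ≥0∞) (q₁ q₂ : ℝ) : ℝ≥0∞ :=
  (∫⁻ z : E m, f (ins q₁ (ins q₂ z)) ^ (m + 2)) ^ ((1:ℝ) / 2)

theorem meas_ins2 {k : ℕ} : Measurable (fun x : (ℝ × ℝ) × E k => ins x.1.1 (ins x.1.2 x.2)) := by
  have h1 : Measurable (fun x : (ℝ × ℝ) × E k => ins x.1.2 x.2) :=
    measurable_ins.comp ((measurable_snd.comp measurable_fst).prodMk measurable_snd)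
  exact measurable_ins.comp ((measurable_fst.comp measurable_fst).prodMk h1)

theorem meas_hh {m : ℕ} {f : E (m+2) → ℝ≥0∞} (hf : Measurable f) :
    Measurable (Function.uncurry (hh f)) := by
  have h1 : Measurable (fun x : (ℝ × ℝ) × E m => f (ins x.1.1 (ins x.1.2 x.2)) ^ (m+2)) :=
    (hf.comp meas_ins2).pow_const _
  exact (h1.lintegral_prod_right').pow_const _

theorem lintegral_hh {m : ℕ} {f : E (m+2) → ℝ≥0∞} (hf : Measurable f) :
    ∫⁻ q₁, ∫⁻ q₂, hh f q₁ q₂ ^ 2 = ∫⁻ p, f p ^ (m + 2) := by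
  have h1 : ∀ q₁ q₂, hh f q₁ q₂ ^ 2 = ∫⁻ z : E m, f (ins q₁ (ins q₂ z)) ^ (m + 2) := by
    intro q₁ q₂
    unfold hh
    rw [← ENNReal.rpow_natCast, ← ENNReal.rpow_mul]
    norm_num
  simp only [h1]
  have h2 := lintegral_ins2 (hf.pow_const (m+2))
  rw [Measure.volume_eq_prod,
    lintegral_prod _ (measurable_lintegral_ins2 (hf.pow_const (m+2))).aemeasurable] at h2
  exact h2.symm

theorem meas_wavx {m : ℕ} {δ : ℝ} {a : E (m+1) → E (m+1)} (ha : Measurable a)
    {f : E (m+1) → ℝ≥0∞} (hf : Measurable f) (k : ℤ) :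
    Measurable (fun x : E (m+1) => wav δ a k f (‖x‖⁻¹ • x)) := by
  have h0 : Measurable (Function.uncurry (fun _ : ℝ => f)) := hf.comp measurable_snd
  have h1 : Measurable (fun x : ℝ × E (m+1) => wav δ a k f x.2) := measurable_wav (δ := δ) ha k h0
  have h2 : Measurable (fun x : E (m+1) => wav δ a k f x) :=
    h1.comp (measurable_prodMk_left (x := (0:ℝ)))
  have h3 : Measurable (fun x : E (m+1) => ‖x‖⁻¹ • x) := measurable_norm.inv.smul measurable_id
  exact h2.comp h3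

theorem kb_step (m : ℕ) {C : ℝ} (hC : 0 < C) (hP : PlanarEst C) : ∃ D : ℝ, 0 < D ∧
    ∀ (δ : ℝ) (a : E (m+2) → E (m+2)) (A : ℝ≥0∞), 0 < δ → δ < 1 → Measurable a → A ≠ 0 →
    (∀ θ : ℝ, ∃ (β : ℝ) (a' : E (m+1) → E (m+1)), Measurable a' ∧ KB m δ a' A ∧
      ∀ e : E (m+1), ‖e‖ = 1 → 0 < e 0 → ∃ s : ℝ, a (emb θ 0 e) = emb θ β (a' e + s • e)) →
    KB (m+1) δ a (ENNReal.ofReal (D * (1 + Real.log (1 / δ))) * A) := by
  obtain ⟨c, hc, hfib⟩ := fibre m
  refine ⟨2 ^ (m+2) * c * C, by positivity, ?_⟩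
  intro δ a A hδ hδ1 ha hA hfam f hf
  choose β a' ha' hKB hlines using hfam
  -- the height function is measurable
  have hβ : Measurable β := by
    have h1 : ∀ θ, β θ = inner ℝ (a (emb θ 0 (ins 1 (0 : E m)))) (emb θ 1 (0 : E (m+1))) := by
      intro θ
      have hn : ‖ins 1 (0 : E m)‖ = 1 := norm_e1 m
      obtain ⟨s, hs⟩ := hlines θ (ins 1 0) hn (by rw [ins_zero]; norm_num)
      rw [hs, inner_emb, inner_zero_right]
      ring
    have h2 : Measurable (fun θ : ℝ => emb θ 0 (ins 1 (0 : E m))) :=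
      measurable_emb.comp (measurable_id.prodMk (measurable_const.prodMk measurable_const))
    have h3 : Measurable (fun θ : ℝ => emb θ 1 (0 : E (m+1))) :=
      measurable_emb.comp (measurable_id.prodMk (measurable_const.prodMk measurable_const))
    have h4 : β = fun θ => inner ℝ (a (emb θ 0 (ins 1 (0 : E m)))) (emb θ 1 (0 : E (m+1))) :=
      funext h1
    rw [h4]
    exact (ha.comp h2).inner h3
  set Q : ℤ → ℝ → ℝ≥0∞ := fun j θ => ((ENNReal.ofReal (2 * δ))⁻¹ * ∫⁻ σ in Icc (-δ) δ,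
    ∫⁻ y in Icc ((j : ℝ) - 1) (j + 3), hh f (y * Real.cos θ - (β θ + σ) * Real.sin θ)
      (y * Real.sin θ + (β θ + σ) * Real.cos θ)) ^ 2 with hQ
  have hQm : ∀ j, Measurable (Q j) := by
    intro j
    have h1 : Measurable (fun x : (ℝ × ℝ) × ℝ => Function.uncurry (hh f)
        (x.2 * Real.cos x.1.1 - (β x.1.1 + x.1.2) * Real.sin x.1.1,
          x.2 * Real.sin x.1.1 + (β x.1.1 + x.1.2) * Real.cos x.1.1)) := by
      apply (meas_hh hf).comp
      have hb : Measurable (fun x : (ℝ × ℝ) × ℝ => β x.1.1) :=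
        hβ.comp (measurable_fst.comp measurable_fst)
      apply Measurable.prodMk
      · apply Measurable.sub
        · fun_prop
        · exact (hb.add (by fun_prop)).mul (by fun_prop)
      · apply Measurable.add
        · fun_prop
        · exact (hb.add (by fun_prop)).mul (by fun_prop)
    have h2 := h1.lintegral_prod_right' (ν := volume.restrict (Icc ((j : ℝ) - 1) (j + 3)))
    have h3 := h2.lintegral_prod_right' (ν := volume.restrict (Icc (-δ) δ))
    exact (h3.const_mul _).pow_const _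
  -- measurability of the integrand
  have hW : ∀ k : ℤ, Measurable (fun x : E (m+2) => wav δ a k f (‖x‖⁻¹ • x)) :=
    fun k => meas_wavx ha hf k
  have hFm : Measurable (fun x : E (m+2) => (⨆ k : ℤ, wav δ a k f (‖x‖⁻¹ • x)) ^ (m+2)) :=
    (Measurable.iSup hW).pow_const _
  set D' : Set (E (m+1)) := {p : E (m+1) | 0 < p 0} with hD'
  have hD'm : MeasurableSet D' := measurableSet_lt measurable_const Fib.meas_zero
  have hslice : ∀ θ : ℝ, ∫⁻ p in D', ENNReal.ofReal (p 0) *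
      (closedBall (0 : E (m+2)) 1).indicator
        (fun x : E (m+2) => (⨆ k : ℤ, wav δ a k f (‖x‖⁻¹ • x)) ^ (m+2)) (emb θ 0 p)
      ≤ ENNReal.ofReal (2 ^ (m+2) * c) * A * ∑' j : ℤ, Q j θ := by
    intro θ
    set G : ℝ → E (m+1) → ℝ≥0∞ := fun σ q => f (emb θ (β θ + σ) q) with hG
    have hGm : Measurable (Function.uncurry G) := by
      have h1 : Measurable (fun x : ℝ × E (m+1) => emb θ (β θ + x.1) x.2) :=
        measurable_emb.comp (measurable_const.prodMk
          ((measurable_const.add measurable_fst).prodMk measurable_snd))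
      exact hf.comp h1
    have h1 := hfib δ (a' θ) A G hδ hδ1 (ha' θ) hA (hKB θ) hGm
    have h2 : ∀ j : ℤ, ((ENNReal.ofReal (2 * δ))⁻¹ *
        ∫⁻ σ in Icc (-δ) δ, ∫⁻ y in Icc ((j : ℝ) - 1) (j + 3),
          (∫⁻ z : E m, G σ (ins y z) ^ (m + 2)) ^ ((1:ℝ) / 2)) ^ 2 = Q j θ := by
      intro j
      have h3 : ∀ σ y : ℝ, (∫⁻ z : E m, G σ (ins y z) ^ (m + 2)) ^ ((1:ℝ) / 2)
          = hh f (y * Real.cos θ - (β θ + σ) * Real.sin θ)
            (y * Real.sin θ + (β θ + σ) * Real.cos θ) := by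
        intro σ y
        simp only [hG, hh, emb, ins_zero, tl_ins]
      simp only [h3]
      rfl
    simp only [h2] at h1
    have hpt : ∀ p ∈ D', ENNReal.ofReal (p 0) * (closedBall (0 : E (m+2)) 1).indicator
        (fun x : E (m+2) => (⨆ k : ℤ, wav δ a k f (‖x‖⁻¹ • x)) ^ (m+2)) (emb θ 0 p)
        ≤ 2 ^ (m+2) * (closedBall (0 : E (m+1)) 1).indicator (fun p => ENNReal.ofReal (p 0) *
          (⨆ k : ℤ, (ENNReal.ofReal (2 * δ))⁻¹ *
            ∫⁻ σ in Icc (-δ) δ, wav δ (a' θ) k (G σ) (‖p‖⁻¹ • p)) ^ (m + 2)) p := by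
      intro p hp
      have hp0 : 0 < p 0 := hp
      have hpn : p ≠ 0 := by
        rintro rfl
        simp at hp0
      have hn : 0 < ‖p‖ := norm_pos_iff.mpr hpn
      by_cases hb : ‖p‖ ≤ 1
      · have hb1 : emb θ 0 p ∈ closedBall (0 : E (m+2)) 1 := by
          rw [mem_closedBall_zero_iff, norm_emb_zero]; exact hb
        have hb2 : p ∈ closedBall (0 : E (m+1)) 1 := by
          rw [mem_closedBall_zero_iff]; exact hb
        rw [indicator_of_mem hb1, indicator_of_mem hb2]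
        have hx : ‖emb θ 0 p‖⁻¹ • emb θ 0 p = emb θ 0 (‖p‖⁻¹ • p) := by
          rw [norm_emb_zero, emb_zero_smul]
        have he : ‖(‖p‖⁻¹ • p)‖ = 1 := by
          rw [norm_smul, norm_inv, norm_norm, inv_mul_cancel₀ hn.ne']
        have he0 : 0 < (‖p‖⁻¹ • p) 0 := by
          have : (‖p‖⁻¹ • p) 0 = ‖p‖⁻¹ * p 0 := rfl
          rw [this]; positivity
        obtain ⟨s, hs⟩ := hlines θ _ he he0
        have h4 : ⨆ k : ℤ, wav δ a k f (emb θ 0 (‖p‖⁻¹ • p))
            ≤ 2 * ⨆ k : ℤ, (ENNReal.ofReal (2 * δ))⁻¹ *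
              ∫⁻ σ in Icc (-δ) δ, wav δ (a' θ) k (G σ) (‖p‖⁻¹ • p) := by
          apply iSup_le
          intro k
          refine (wav_le hδ θ (β θ) s a (a' θ) _ he hs hf k).trans ?_
          gcongr
          exact le_iSup (fun k : ℤ => (ENNReal.ofReal (2 * δ))⁻¹ *
              ∫⁻ σ in Icc (-δ) δ, wav δ (a' θ) k (G σ) (‖p‖⁻¹ • p)) k
        rw [hx]
        calc ENNReal.ofReal (p 0) * (⨆ k : ℤ, wav δ a k f (emb θ 0 (‖p‖⁻¹ • p))) ^ (m+2)
            ≤ ENNReal.ofReal (p 0) * (2 * ⨆ k : ℤ, (ENNReal.ofReal (2 * δ))⁻¹ *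
              ∫⁻ σ in Icc (-δ) δ, wav δ (a' θ) k (G σ) (‖p‖⁻¹ • p)) ^ (m+2) := by gcongr
          _ = _ := by rw [mul_pow]; ring
      · have hb1 : emb θ 0 p ∉ closedBall (0 : E (m+2)) 1 := by
          rw [mem_closedBall_zero_iff, norm_emb_zero]; exact hb
        rw [indicator_of_notMem hb1, mul_zero]
        exact zero_le
    calc ∫⁻ p in D', ENNReal.ofReal (p 0) * (closedBall (0 : E (m+2)) 1).indicator
            (fun x : E (m+2) => (⨆ k : ℤ, wav δ a k f (‖x‖⁻¹ • x)) ^ (m+2)) (emb θ 0 p)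
        ≤ ∫⁻ p in D', 2 ^ (m+2) * (closedBall (0 : E (m+1)) 1).indicator
            (fun p => ENNReal.ofReal (p 0) * (⨆ k : ℤ, (ENNReal.ofReal (2 * δ))⁻¹ *
              ∫⁻ σ in Icc (-δ) δ, wav δ (a' θ) k (G σ) (‖p‖⁻¹ • p)) ^ (m + 2)) p :=
          setLIntegral_mono' hD'm hpt
      _ = 2 ^ (m+2) * ∫⁻ p in D' ∩ closedBall 0 1, ENNReal.ofReal (p 0) *
          (⨆ k : ℤ, (ENNReal.ofReal (2 * δ))⁻¹ *
            ∫⁻ σ in Icc (-δ) δ, wav δ (a' θ) k (G σ) (‖p‖⁻¹ • p)) ^ (m + 2) := by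
          rw [lintegral_const_mul' _ _ (by simp), setLIntegral_indicator measurableSet_closedBall,
            inter_comm]
      _ ≤ 2 ^ (m+2) * (ENNReal.ofReal c * A * ∑' j : ℤ, Q j θ) := by
          gcongr
      _ = _ := by
          rw [ENNReal.ofReal_mul (by positivity), ENNReal.ofReal_pow (by norm_num)]
          simp only [ENNReal.ofReal_ofNat]
          ring
  calc ∫⁻ x in closedBall (0 : E (m + 1 + 1)) 1,
        (⨆ k : ℤ, wav δ a k f (‖x‖⁻¹ • x)) ^ (m + 1 + 1)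
      = ∫⁻ x : E (m+2), (closedBall (0 : E (m+2)) 1).indicator
        (fun x : E (m+2) => (⨆ k : ℤ, wav δ a k f (‖x‖⁻¹ • x)) ^ (m+2)) x := by
        rw [lintegral_indicator measurableSet_closedBall]
    _ = ∫⁻ θ in Ioo (-Real.pi) Real.pi, ∫⁻ p in D', ENNReal.ofReal (p 0) *
        (closedBall (0 : E (m+2)) 1).indicator
        (fun x : E (m+2) => (⨆ k : ℤ, wav δ a k f (‖x‖⁻¹ • x)) ^ (m+2)) (emb θ 0 p) :=
        lintegral_polar (hFm.indicator measurableSet_closedBall)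
    _ ≤ ∫⁻ θ in Ioo (-Real.pi) Real.pi, ENNReal.ofReal (2 ^ (m+2) * c) * A * ∑' j : ℤ, Q j θ :=
        lintegral_mono hslice
    _ = ENNReal.ofReal (2 ^ (m+2) * c) * A * ∑' j : ℤ,
          ∫⁻ θ in Ioo (-Real.pi) Real.pi, Q j θ := by
        rw [lintegral_const_mul, lintegral_tsum]
        · intro j; exact (hQm j).aemeasurable
        · exact Measurable.tsum hQm
    _ ≤ ENNReal.ofReal (2 ^ (m+2) * c) * A *
          (ENNReal.ofReal (C * (1 + Real.log (1 / δ))) * ∫⁻ q₁, ∫⁻ q₂, hh f q₁ q₂ ^ 2) := by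
        gcongr
        exact hP β δ (hh f) hβ hδ hδ1 (meas_hh hf)
    _ = _ := by
        rw [lintegral_hh hf]
        have h5 : 2 ^ (m+2) * c * C * (1 + Real.log (1 / δ))
            = (2 ^ (m+2) * c) * (C * (1 + Real.log (1 / δ))) := by ring
        rw [h5, ENNReal.ofReal_mul (p := 2 ^ (m+2) * c) (by positivity)]
        ring

theorem Reducible.measurable {n : ℕ} {a : E n → E n} (h : Reducible n a) : Measurable a := by
  match n, a, h with
  | 0, a, h => exact h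
  | 1, a, h => exact h
  | (k+2), a, h => exact h.1

theorem kb_all {C : ℝ} (hC : 0 < C) (hP : PlanarEst C) (m : ℕ) : ∃ D : ℝ, 0 < D ∧
    ∀ (δ : ℝ) (a : E (m+1) → E (m+1)), 0 < δ → δ < 1 → Reducible (m+1) a →
    KB m δ a (ENNReal.ofReal (D * (1 + Real.log (1 / δ)) ^ m)) := by
  induction m with
  | zero =>
    refine ⟨(volume (closedBall (0 : E 1) 1)).toReal + 1, by positivity, ?_⟩
    intro δ a hδ hδ1 ha f hf
    have hV : volume (closedBall (0 : E 1) 1) ≠ ∞ := measure_closedBall_lt_top.ne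
    calc ∫⁻ x in closedBall (0 : E (0 + 1)) 1, (⨆ k : ℤ, wav δ a k f (‖x‖⁻¹ • x)) ^ (0 + 1)
        ≤ ∫⁻ x in closedBall (0 : E (0 + 1)) 1, ∫⁻ p, f p := by
          apply lintegral_mono
          intro x
          simp only [zero_add, pow_one]
          apply iSup_le
          intro k
          unfold wav
          simp only [pow_zero, inv_one, one_mul]
          exact setLIntegral_le_lintegral _ _
      _ = volume (closedBall (0 : E 1) 1) * ∫⁻ p, f p := by
          rw [lintegral_const, Measure.restrict_apply_univ, mul_comm]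
      _ ≤ _ := by
          simp only [pow_zero, mul_one, zero_add, pow_one]
          gcongr
          rw [ENNReal.ofReal_add (by positivity) (by norm_num), ENNReal.ofReal_toReal hV]
          exact le_self_add
  | succ m ih =>
    obtain ⟨D, hD, hK⟩ := ih
    obtain ⟨D', hD', hstep⟩ := kb_step m hC hP
    refine ⟨D' * D, by positivity, ?_⟩
    intro δ a hδ hδ1 ha
    have hlog : 0 ≤ Real.log (1 / δ) := Real.log_nonneg (by rw [le_div_iff₀ hδ]; linarith)
    obtain ⟨ham, U, hU⟩ := ha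
    have hcm : Measurable (fun e => U.symm (a (U e))) :=
      U.symm.continuous.measurable.comp (ham.comp U.continuous.measurable)
    have h1 : KB (m+1) δ (fun e => U.symm (a (U e)))
        (ENNReal.ofReal (D' * (1 + Real.log (1 / δ))) *
          ENNReal.ofReal (D * (1 + Real.log (1 / δ)) ^ m)) := by
      apply hstep δ _ _ hδ hδ1 hcm
      · have : 0 < D * (1 + Real.log (1 / δ)) ^ m := by positivity
        simpa using this
      · intro θ
        obtain ⟨β, a', hred, hl⟩ := hU θ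
        refine ⟨β, a', hred.measurable, hK δ a' hδ hδ1 hred, ?_⟩
        intro e he he0
        obtain ⟨s, hs⟩ := hl e he he0
        refine ⟨s, ?_⟩
        rw [hs, LinearIsometryEquiv.symm_apply_apply]
    have h2 := kb_rot ham U h1
    rw [← ENNReal.ofReal_mul (by positivity)] at h2
    have h3 : D' * (1 + Real.log (1 / δ)) * (D * (1 + Real.log (1 / δ)) ^ m)
        = D' * D * (1 + Real.log (1 / δ)) ^ (m+1) := by ring
    rwa [h3] at h2

end Pool.Agent.H742R2.Kk
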