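import Pool.Agent.H742R2.Kk.Defs

set_option autoImplicit false

open MeasureTheory Set Filter Topology ENNReal NNReal Metric

namespace Pool.Agent.H742R2.Kk

/-! ### Task A : abstract `T T*` lemma -/

theorem tt_star {Ω Q : Type*} [MeasurableSpace Ω] [MeasurableSpace Q]
    (μ : Measure Ω) (ρ : Measure Q) [SigmaFinite μ] [SFinite ρ]
    (K : Ω → Q → ℝ≥0∞) (hK : Measurable (Function.uncurry K)) (B : ℝ≥0∞)
    (hB : ∀ ω, ∫⁻ ω', ∫⁻ q, K ω q * K ω' q ∂ρ ∂μ ≤ B)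
    (h : Q → ℝ≥0∞) (hh : Measurable h) :
    ∫⁻ ω, (∫⁻ q, K ω q * h q ∂ρ) ^ 2 ∂μ ≤ B * ∫⁻ q, h q ^ 2 ∂ρ := by
  sorry

/-! ### Task B : planar estimate, uses A -/

theorem planar : ∃ C : ℝ, 0 < C ∧ ∀ (β : ℝ → ℝ) (δ : ℝ) (h : ℝ → ℝ → ℝ≥0∞), Measurable β →
    0 < δ → δ < 1 → Measurable (Function.uncurry h) →
    ∑' j : ℤ, ∫⁻ θ in Ioo (-Real.pi) Real.pi,
      ((ENNReal.ofReal (2 * δ))⁻¹ * ∫⁻ σ in Icc (-δ) δ, ∫⁻ y in Icc ((j : ℝ) - 1) (j + 3),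
        h (y * Real.cos θ - (β θ + σ) * Real.sin θ) (y * Real.sin θ + (β θ + σ) * Real.cos θ)) ^ 2
    ≤ ENNReal.ofReal (C * (1 + Real.log (1 / δ))) * ∫⁻ q₁, ∫⁻ q₂, h q₁ q₂ ^ 2 := by
  sorry

/-! ### Task C : coordinates -/

theorem ins_eta {k : ℕ} (p : E (k + 1)) : ins (p 0) (tl p) = p := by
  sorry

theorem ins_zero {k : ℕ} (r : ℝ) (z : E k) : (ins r z) 0 = r := by
  sorry

theorem tl_ins {k : ℕ} (r : ℝ) (z : E k) : tl (ins r z) = z := by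
  sorry

theorem inner_ins {k : ℕ} (r s : ℝ) (z w : E k) :
    inner ℝ (ins r z) (ins s w) = r * s + inner ℝ z w := by
  sorry

theorem inner_emb {k : ℕ} (θ σ τ : ℝ) (p q : E (k + 1)) :
    inner ℝ (emb θ σ p) (emb θ τ q) = σ * τ + inner ℝ p q := by
  sorry

theorem measurable_ins {k : ℕ} : Measurable (fun x : ℝ × E k => ins x.1 x.2) := by
  sorry

theorem measurable_emb {k : ℕ} :
    Measurable (fun x : ℝ × ℝ × E (k + 1) => emb x.1 x.2.1 x.2.2) := by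
  sorry

theorem emb_add {k : ℕ} (θ σ τ : ℝ) (p q : E (k + 1)) :
    emb θ (σ + τ) (p + q) = emb θ σ p + emb θ τ q := by
  sorry

theorem emb_smul {k : ℕ} (θ σ c : ℝ) (p : E (k + 1)) :
    emb θ (c * σ) (c • p) = c • emb θ σ p := by
  sorry

/-- Tonelli for the splitting `p = (y, z)`. -/
theorem lintegral_ins {k : ℕ} {f : E (k + 1) → ℝ≥0∞} (hf : Measurable f) :
    ∫⁻ p, f p = ∫⁻ y : ℝ, ∫⁻ z : E k, f (ins y z) := by
  sorry

/-- Tonelli in the rotated coordinates. -/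
theorem lintegral_emb {k : ℕ} (θ β : ℝ) {f : E (k + 2) → ℝ≥0∞} (hf : Measurable f) :
    ∫⁻ p, f p = ∫⁻ σ : ℝ, ∫⁻ q : E (k + 1), f (emb θ (β + σ) q) := by
  sorry

/-- Polar coordinates in the first two variables. -/
theorem lintegral_polar {k : ℕ} {F : E (k + 2) → ℝ≥0∞} (hF : Measurable F) :
    ∫⁻ x, F x = ∫⁻ θ in Ioo (-Real.pi) Real.pi, ∫⁻ p in {p : E (k + 1) | 0 < p 0},
      ENNReal.ofReal (p 0) * F (emb θ 0 p) := by
  sorry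

/-! ### Task E : projection of a tube to the first axis -/

theorem tub_proj (m : ℕ) : ∃ c : ℝ, 0 < c ∧ ∀ (δ : ℝ) (e a : E (m + 1)) (k : ℤ) (φ : ℝ → ℝ≥0∞),
    0 < δ → δ < 1 → ‖e‖ = 1 → 0 < e 0 → Measurable φ →
    (ENNReal.ofReal δ ^ m)⁻¹ * ∫⁻ p in tub δ e a k, φ (p 0)
      ≤ ENNReal.ofReal (c / e 0) * ∫⁻ y, φ y := by
  sorry

/-! ### Task I : rotations -/

theorem kb_rot {m : ℕ} {δ : ℝ} {a : E (m + 1) → E (m + 1)} {A : ℝ≥0∞} (ha : Measurable a)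
    (U : E (m + 1) ≃ₗᵢ[ℝ] E (m + 1))
    (h : KB m δ (fun e => U.symm (a (U e))) A) : KB m δ a A := by
  sorry

/-! ### Task J : surface measure, volume of the tubes -/

/-- A nonnegative measurable function of the direction: surface integral versus ball integral. -/
theorem sphere_le_ball (n : ℕ) {G : E (n + 1) → ℝ≥0∞} (hG : Measurable G) :
    ∫⁻ e : sphere (0 : E (n + 1)) 1, G e ∂(volume : Measure (E (n + 1))).toSphere
      ≤ (n + 1) * ∫⁻ x in closedBall (0 : E (n + 1)) 1, G (‖x‖⁻¹ • x) := by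
  sorry

/-- Lower bound for the volume of a tube. -/
theorem volume_tube (m : ℕ) : ∃ c : ℝ, 0 < c ∧ ∀ (δ : ℝ) (e a : E (m + 1)), 0 < δ → ‖e‖ = 1 →
    ENNReal.ofReal (c * δ ^ m) ≤ volume {y : E (m + 1) | |inner ℝ (y - a) e| ≤ 1 / 2 ∧
      ‖(y - a) - (inner ℝ (y - a) e : ℝ) • e‖ ≤ δ} := by
  sorry

/-! ### Task F : fibre estimate -/

/-- Joint measurability of the pieces. -/
theorem measurable_wav {m : ℕ} {X : Type*} [MeasurableSpace X] {δ : ℝ}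
    {a : E (m + 1) → E (m + 1)} (ha : Measurable a) (k : ℤ)
    {f : X → E (m + 1) → ℝ≥0∞} (hf : Measurable (Function.uncurry f)) :
    Measurable (fun x : X × E (m + 1) => wav δ a k (f x.1) x.2) := by
  sorry

theorem fibre (m : ℕ) : ∃ c : ℝ, 0 < c ∧ ∀ (δ : ℝ) (a' : E (m + 1) → E (m + 1)) (A : ℝ≥0∞)
    (G : ℝ → E (m + 1) → ℝ≥0∞), 0 < δ → δ < 1 → Measurable a' → A ≠ 0 → KB m δ a' A →
    Measurable (Function.uncurry G) →
    ∫⁻ p in {p : E (m + 1) | 0 < p 0} ∩ closedBall 0 1, ENNReal.ofReal (p 0) *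
      (⨆ k : ℤ, (ENNReal.ofReal (2 * δ))⁻¹ *
        ∫⁻ σ in Icc (-δ) δ, wav δ a' k (G σ) (‖p‖⁻¹ • p)) ^ (m + 2)
    ≤ ENNReal.ofReal c * A * ∑' j : ℤ, ((ENNReal.ofReal (2 * δ))⁻¹ *
        ∫⁻ σ in Icc (-δ) δ, ∫⁻ y in Icc ((j : ℝ) - 1) (j + 3),
          (∫⁻ z : E m, G σ (ins y z) ^ (m + 2)) ^ ((1:ℝ) / 2)) ^ 2 := by
  sorry

end Pool.Agent.H742R2.Kk
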